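import Pool.Agent.D0H73.MK.Stm

/-!
# Project MK, modules BASE and CONV
-/

set_option autoImplicit false

open Set Topology Filter Cardinal Ordinal

namespace Pool.Agent.D0H58.MK

open Pool.Agent.D0H73.MK

universe u

theorem t_BASE : S_BASE.{u} := by
  intro 𝕜 _ X _ _ E hE hsep κ hκ
  classical
  have hκ0 : κ.ord ≠ 0 := by
    intro h
    rw [Cardinal.ord_eq_zero] at h
    rw [h] at hκ
    exact absurd hκ (not_le.mpr Cardinal.aleph0_pos)
  have h1 : ∀ α : Ordinal.{u}, α + 1 ≠ 0 := fun α => by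
    rw [← Order.succ_eq_add_one]; exact Order.succ_ne_bot α
  refine ⟨fun α => if α = 0 then 0 else E, ⟨?_, ?_, ?_, ?_, ?_⟩⟩
  · simp
  · simp [hκ0]
  · intro α _
    simp only [h1 α, if_false]
    by_cases h : α = 0
    · simpa [h] using hsep
    · simp only [h, if_false, sub_self]
      refine (Set.countable_singleton (0 : X)).isSeparable.mono ?_
      rintro _ ⟨x, rfl⟩
      simp
  · intro β α hβ _ x
    by_cases hb : β = 0
    · simp [hb]
    · have ha : α ≠ 0 := fun h => hb (le_antisymm (h ▸ hβ) zero_le)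
      simp [hb, ha, hE]
  · intro x
    apply subset_closure
    apply Submodule.subset_span
    refine ⟨0, lt_of_le_of_ne zero_le hκ0.symm, ?_⟩
    simp

theorem t_CONV : S_CONV.{u} := by
  intro 𝕜 _ X _ _ D hD κ ⟨Q', hQ'⟩
  have hmem : ∀ x, D x ∈ rng D := fun x => ⟨x, rfl⟩
  let D' : X →L[𝕜] rng D := D.codRestrict (rng D) hmem
  let ι : rng D →L[𝕜] X := (rng D).subtypeL
  have hD' : ∀ w : rng D, D' (ι w) = w := by
    rintro ⟨_, x, rfl⟩
    apply Subtype.ext
    change D (D x) = D x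
    exact hD x
  have hD'x : ∀ x, ι (D' x) = D x := fun x => rfl
  refine ⟨fun α => ι.comp ((Q' α).comp D'), ⟨?_, ?_, ?_, ?_, ?_⟩⟩
  · ext x
    simp [hQ'.zero]
  · ext x
    change ι (Q' κ.ord (D' x)) = D x
    rw [hQ'.top]
    rfl
  · intro α hα
    have h := (hQ'.sep α hα).image ι.continuous
    refine h.mono ?_
    rintro _ ⟨x, rfl⟩
    refine ⟨_, ⟨D' x, rfl⟩, ?_⟩
    change ι (Q' (α + 1) (D' x) - Q' α (D' x)) = ι (Q' (α + 1) (D' x)) - ι (Q' α (D' x))
    rw [map_sub]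
  · intro β α hβ hα x
    have h := hQ'.comp β α hβ hα (D' x)
    constructor
    · change ι (Q' α (D' (ι (Q' β (D' x))))) = ι (Q' β (D' x))
      rw [hD', h.1]
    · change ι (Q' β (D' (ι (Q' α (D' x))))) = ι (Q' β (D' x))
      rw [hD', h.2]
  · intro x
    have h := hQ'.dense (D' x)
    have h2 : ι (D' x) ∈ closure (ι '' (Submodule.span 𝕜 {y | ∃ β < κ.ord,
        y = Q' (β + 1) (D' x) - Q' β (D' x)} : Set (rng D))) :=
      image_closure_subset_closure_image ι.continuous ⟨_, h, rfl⟩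
    rw [hD'x] at h2
    refine closure_mono ?_ h2
    rintro _ ⟨w, hw, rfl⟩
    have h3 : ((ι : rng D →ₗ[𝕜] X) w) ∈ Submodule.map (ι : rng D →ₗ[𝕜] X)
        (Submodule.span 𝕜 {y | ∃ β < κ.ord, y = Q' (β + 1) (D' x) - Q' β (D' x)}) :=
      Submodule.mem_map_of_mem hw
    rw [Submodule.map_span] at h3
    refine Submodule.span_mono ?_ h3
    rintro _ ⟨_, ⟨β, hβ, rfl⟩, rfl⟩
    refine ⟨β, hβ, ?_⟩
    change ι (Q' (β + 1) (D' x) - Q' β (D' x)) = ι (Q' (β + 1) (D' x)) - ι (Q' β (D' x))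
    rw [map_sub]

end Pool.Agent.D0H58.MK
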